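import Pool.Agent.Helper56.RC.StF

/-!
# Module TRG of project RC (MP_b21509): the table of cosines
-/

set_option autoImplicit false

namespace Pool.Agent.Helper10.RC

open Helper56.RC

/-- `10^10 cos (k π / 120)`, `k = 0, ..., 60`, rounded -/
def T10 : List ℤ := [
  10000000000, 9996573250, 9986295348, 9969173337, 9945218954, 9914448614, 9876883406, 9832549076,
  9781476007, 9723699204, 9659258263, 9588197349, 9510565163, 9426414911, 9335804265, 9238795325,
  9135454576, 9025852843, 8910065242, 8788171127, 8660254038, 8526401644, 8386705679, 8241261886,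
  8090169944, 7933533403, 7771459615, 7604059656, 7431448255, 7253743710, 7071067812, 6883545757,
  6691306064, 6494480483, 6293203910, 6087614290, 5877852523, 5664062369, 5446390350, 5224985647,
  5000000000, 4771587603, 4539904997, 4305110968, 4067366431, 3826834324, 3583679495, 3338068592,
  3090169944, 2840153447, 2588190451, 2334453639, 2079116908, 1822355255, 1564344650, 1305261922,
  1045284633, 784590957, 523359562, 261769483, 0]

theorem T10_step : ∀ k < 60,
    (-20000000000 ≤ T10.getD (k + 1) 0 * 10000000000 -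
        (T10.getD k 0 * 9996573250 - T10.getD (60 - k) 0 * 261769483) ∧
      T10.getD (k + 1) 0 * 10000000000 -
        (T10.getD k 0 * 9996573250 - T10.getD (60 - k) 0 * 261769483) ≤ 20000000000) ∧
    (-20000000000 ≤ T10.getD (60 - (k + 1)) 0 * 10000000000 -
        (T10.getD k 0 * 261769483 + T10.getD (60 - k) 0 * 9996573250) ∧
      T10.getD (60 - (k + 1)) 0 * 10000000000 -
        (T10.getD k 0 * 261769483 + T10.getD (60 - k) 0 * 9996573250) ≤ 20000000000) := by
  decide +kernel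

theorem T10_c0 : ∀ k < 61, -5001 ≤ T10.getD k 0 - c0.getD k 0 * 10000 ∧
    T10.getD k 0 - c0.getD k 0 * 10000 ≤ 5001 := by
  decide +kernel

/-- the point of the unit circle -/
noncomputable def Z (x : ℝ) : ℂ := Complex.exp (x * Complex.I)

theorem Z_norm (x : ℝ) : ‖Z x‖ = 1 := Complex.norm_exp_ofReal_mul_I x

theorem Z_re (x : ℝ) : (Z x).re = Real.cos x := Complex.exp_ofReal_mul_I_re x

theorem Z_im (x : ℝ) : (Z x).im = Real.sin x := Complex.exp_ofReal_mul_I_im x

theorem Z_add (x y : ℝ) : Z (x + y) = Z x * Z y := by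
  unfold Z
  rw [← Complex.exp_add]
  congr 1
  push_cast
  ring

/-- the approximation -/
noncomputable def w (k : ℕ) : ℂ :=
  ⟨(T10.getD k 0 : ℝ) / 10 ^ 10, (T10.getD (60 - k) 0 : ℝ) / 10 ^ 10⟩

noncomputable def w1 : ℂ := ⟨9996573250 / 10 ^ 10, 261769483 / 10 ^ 10⟩

theorem norm_le_add (z : ℂ) (x y : ℝ) (hx : |z.re| ≤ x) (hy : |z.im| ≤ y) : ‖z‖ ≤ x + y :=
  (Complex.norm_le_abs_re_add_abs_im z).trans (add_le_add hx hy)

theorem base : ‖Z (Real.pi / 120) - w1‖ ≤ 7 / 10 ^ 8 := by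
  have h1 := Real.pi_gt_d6
  have h2 := Real.pi_lt_d6
  set x : ℝ := Real.pi / 120 with hx
  have hL : (3.141592 : ℝ) / 120 ≤ x := by
    rw [hx]
    linarith
  have hU : x ≤ (3.141593 : ℝ) / 120 := by
    rw [hx]
    linarith
  have hx0 : 0 ≤ x := le_trans (by norm_num) hL
  have hx1 : |x| ≤ 1 := by
    rw [abs_of_nonneg hx0]
    exact hU.trans (by norm_num)
  have hc := Real.cos_bound hx1
  have hs := Real.sin_bound hx1
  rw [abs_of_nonneg hx0] at hc hs
  have h4 : x ^ 4 ≤ ((3.141593 : ℝ) / 120) ^ 4 := pow_le_pow_left₀ hx0 hU 4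
  have h5 : x ^ 5 ≤ ((3.141593 : ℝ) / 120) ^ 5 := pow_le_pow_left₀ hx0 hU 5
  have h2a : ((3.141592 : ℝ) / 120) ^ 2 ≤ x ^ 2 := pow_le_pow_left₀ (by norm_num) hL 2
  have h2b : x ^ 2 ≤ ((3.141593 : ℝ) / 120) ^ 2 := pow_le_pow_left₀ hx0 hU 2
  have h3a : ((3.141592 : ℝ) / 120) ^ 3 ≤ x ^ 3 := pow_le_pow_left₀ (by norm_num) hL 3
  have h3b : x ^ 3 ≤ ((3.141593 : ℝ) / 120) ^ 3 := pow_le_pow_left₀ hx0 hU 3
  norm_num at h4 h5 h2a h2b h3a h3b hL hU
  have e : (7 : ℝ) / 10 ^ 8 = 5 / 10 ^ 8 + 2 / 10 ^ 8 := by norm_num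
  rw [e]
  apply norm_le_add
  · rw [Complex.sub_re, Z_re]
    change |Real.cos x - 9996573250 / 10 ^ 10| ≤ _
    rw [abs_le] at hc ⊢
    constructor
    · norm_num
      linarith [hc.1, hc.2]
    · norm_num
      linarith [hc.1, hc.2]
  · rw [Complex.sub_im, Z_im]
    change |Real.sin x - 261769483 / 10 ^ 10| ≤ _
    rw [abs_le] at hs ⊢
    constructor
    · norm_num
      linarith [hs.1, hs.2]
    · norm_num
      linarith [hs.1, hs.2]

theorem step_w (k : ℕ) (hk : k < 60) : ‖w k * w1 - w (k + 1)‖ ≤ 4 / 10 ^ 10 := by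
  obtain ⟨⟨h1, h2⟩, h3, h4⟩ := T10_step k hk
  have h1' : (-20000000000 : ℝ) ≤ (T10.getD (k + 1) 0 : ℝ) * 10000000000 -
        ((T10.getD k 0 : ℝ) * 9996573250 - (T10.getD (60 - k) 0 : ℝ) * 261769483) := by exact_mod_cast h1
  have h2' : (T10.getD (k + 1) 0 : ℝ) * 10000000000 -
        ((T10.getD k 0 : ℝ) * 9996573250 - (T10.getD (60 - k) 0 : ℝ) * 261769483) ≤ 20000000000 := by
    exact_mod_cast h2
  have h3' : (-20000000000 : ℝ) ≤ (T10.getD (60 - (k + 1)) 0 : ℝ) * 10000000000 -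
        ((T10.getD k 0 : ℝ) * 261769483 + (T10.getD (60 - k) 0 : ℝ) * 9996573250) := by exact_mod_cast h3
  have h4' : (T10.getD (60 - (k + 1)) 0 : ℝ) * 10000000000 -
        ((T10.getD k 0 : ℝ) * 261769483 + (T10.getD (60 - k) 0 : ℝ) * 9996573250) ≤ 20000000000 := by
    exact_mod_cast h4
  have e : (4 : ℝ) / 10 ^ 10 = 2 / 10 ^ 10 + 2 / 10 ^ 10 := by norm_num
  rw [e]
  apply norm_le_add
  · rw [Complex.sub_re, Complex.mul_re]
    change |(T10.getD k 0 : ℝ) / 10 ^ 10 * (9996573250 / 10 ^ 10) -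
      (T10.getD (60 - k) 0 : ℝ) / 10 ^ 10 * (261769483 / 10 ^ 10) -
      (T10.getD (k + 1) 0 : ℝ) / 10 ^ 10| ≤ _
    clear h3' h4' h1 h2 h3 h4
    generalize (T10.getD (k + 1) 0 : ℝ) = x1 at h1' h2' ⊢
    generalize (T10.getD k 0 : ℝ) = x2 at h1' h2' ⊢
    generalize (T10.getD (60 - k) 0 : ℝ) = x3 at h1' h2' ⊢
    rw [abs_le]
    constructor <;> norm_num <;> linarith
  · rw [Complex.sub_im, Complex.mul_im]
    change |(T10.getD k 0 : ℝ) / 10 ^ 10 * (261769483 / 10 ^ 10) +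
      (T10.getD (60 - k) 0 : ℝ) / 10 ^ 10 * (9996573250 / 10 ^ 10) -
      (T10.getD (60 - (k + 1)) 0 : ℝ) / 10 ^ 10| ≤ _
    clear h1' h2' h1 h2 h3 h4
    generalize (T10.getD (60 - (k + 1)) 0 : ℝ) = x1 at h3' h4' ⊢
    generalize (T10.getD k 0 : ℝ) = x2 at h3' h4' ⊢
    generalize (T10.getD (60 - k) 0 : ℝ) = x3 at h3' h4' ⊢
    rw [abs_le]
    constructor <;> norm_num <;> linarith

theorem main_w (k : ℕ) (hk : k ≤ 60) :
    ‖Z (k * Real.pi / 120) - w k‖ ≤ k * (8 / 10 ^ 8) := by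
  induction k with
  | zero =>
    have h1 : Z ((0 : ℕ) * Real.pi / 120) = 1 := by
      unfold Z
      simp
    have h2 : w 0 = 1 := by
      apply Complex.ext
      · change (T10.getD 0 0 : ℝ) / 10 ^ 10 = 1
        have : T10.getD 0 0 = 10000000000 := by decide
        rw [this]
        norm_num
      · change (T10.getD 60 0 : ℝ) / 10 ^ 10 = 0
        have : T10.getD 60 0 = 0 := by decide
        rw [this]
        norm_num
    rw [h1, h2]
    simp
  | succ k ih =>
    have h1 := ih (by omega)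
    have hk' : (k : ℝ) ≤ 60 := by
      have : k ≤ 60 := by omega
      exact_mod_cast this
    have h2 : Z (((k + 1 : ℕ) : ℝ) * Real.pi / 120) =
        Z (k * Real.pi / 120) * Z (Real.pi / 120) := by
      rw [← Z_add]
      congr 1
      push_cast
      ring
    have h3 : Z (((k + 1 : ℕ) : ℝ) * Real.pi / 120) - w (k + 1) =
        (Z (k * Real.pi / 120) - w k) * Z (Real.pi / 120) + w k * (Z (Real.pi / 120) - w1) +
        (w k * w1 - w (k + 1)) := by
      rw [h2]
      ring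
    have h4 : ‖w k‖ ≤ 11 / 10 := by
      have : w k = Z (k * Real.pi / 120) - (Z (k * Real.pi / 120) - w k) := by ring
      rw [this]
      refine (norm_sub_le _ _).trans ?_
      rw [Z_norm]
      have : (k : ℝ) * (8 / 10 ^ 8) ≤ 60 * (8 / 10 ^ 8) :=
        mul_le_mul_of_nonneg_right hk' (by norm_num)
      have h5 : (60 : ℝ) * (8 / 10 ^ 8) ≤ 1 / 10 := by norm_num
      linarith
    have h5 : ‖(Z (k * Real.pi / 120) - w k) * Z (Real.pi / 120)‖ ≤ k * (8 / 10 ^ 8) := by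
      rw [norm_mul, Z_norm, mul_one]
      exact h1
    have h6 : ‖w k * (Z (Real.pi / 120) - w1)‖ ≤ 11 / 10 * (7 / 10 ^ 8) := by
      rw [norm_mul]
      exact mul_le_mul h4 base (norm_nonneg _) (by norm_num)
    have h7 := step_w k (by omega)
    rw [h3]
    refine (norm_add_le _ _).trans ?_
    have h8 := norm_add_le ((Z (k * Real.pi / 120) - w k) * Z (Real.pi / 120))
      (w k * (Z (Real.pi / 120) - w1))
    push_cast
    have h9 : (11 : ℝ) / 10 * (7 / 10 ^ 8) + 4 / 10 ^ 10 ≤ 8 / 10 ^ 8 := by norm_num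
    linarith

theorem key (n : ℕ) (hn : n ≤ 60) :
    |Real.cos (n * Real.pi / 120) - (c0.getD n 0 : ℝ) / 10 ^ 6| ≤ 1 / 10 ^ 5 := by
  have h1 := main_w n hn
  have h2 : |(Z (n * Real.pi / 120) - w n).re| ≤ n * (8 / 10 ^ 8) :=
    (Complex.abs_re_le_norm _).trans h1
  rw [Complex.sub_re, Z_re] at h2
  change |Real.cos (n * Real.pi / 120) - (T10.getD n 0 : ℝ) / 10 ^ 10| ≤ _ at h2
  obtain ⟨h3, h4⟩ := T10_c0 n (by omega)
  have h3' : (-5001 : ℝ) ≤ (T10.getD n 0 : ℝ) - (c0.getD n 0 : ℝ) * 10000 := by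
    exact_mod_cast h3
  have h4' : (T10.getD n 0 : ℝ) - (c0.getD n 0 : ℝ) * 10000 ≤ 5001 := by exact_mod_cast h4
  have h5 : (n : ℝ) * (8 / 10 ^ 8) ≤ 60 * (8 / 10 ^ 8) :=
    mul_le_mul_of_nonneg_right (by exact_mod_cast hn) (by norm_num)
  have h6 := h2.trans h5
  clear h1 h2 h3 h4 h5
  generalize (T10.getD n 0 : ℝ) = x1 at h3' h4' h6 ⊢
  generalize (c0.getD n 0 : ℝ) = x2 at h3' h4' ⊢
  rw [abs_le] at h6 ⊢
  obtain ⟨h7, h8⟩ := h6
  norm_num at h7 h8 ⊢
  constructor <;> linarith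

theorem hTRG : StTrg := by
  intro k
  have hr0 : 0 ≤ k % 240 := Int.emod_nonneg k (by norm_num)
  have hr1 : k % 240 < 240 := Int.emod_lt_of_pos k (by norm_num)
  obtain ⟨r, hr⟩ : ∃ r : ℕ, (r : ℤ) = k % 240 := ⟨(k % 240).toNat, Int.toNat_of_nonneg hr0⟩
  have hr2 : (k % 240).toNat = r := by
    rw [← hr, Int.toNat_natCast]
  have hr3 : r < 240 := by
    rw [← hr] at hr1
    exact_mod_cast hr1
  have hkr : (k : ℝ) = r + 240 * ((k / 240 : ℤ) : ℝ) := by
    have h1 : k = (r : ℤ) + 240 * (k / 240) := by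
      rw [hr]
      exact (Int.emod_add_mul_ediv k 240).symm
    have h2 := congrArg (fun z : ℤ => (z : ℝ)) h1
    push_cast at h2
    exact h2
  have hcos : Real.cos (k * Real.pi / 120) = Real.cos (r * Real.pi / 120) := by
    have h1 : (k : ℝ) * Real.pi / 120 =
        r * Real.pi / 120 + ((k / 240 : ℤ) : ℝ) * (2 * Real.pi) := by
      rw [hkr]
      ring
    rw [h1, Real.cos_add_int_mul_two_pi]
  rw [hcos]
  unfold cT
  simp only [hr2]
  split_ifs with h1 h2 h3
  · exact key r h1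
  · have h4 := key (120 - r) (by omega)
    have h5 : (((120 - r : ℕ) : ℝ)) * Real.pi / 120 = Real.pi - r * Real.pi / 120 := by
      rw [Nat.cast_sub h2]
      push_cast
      ring
    rw [h5, Real.cos_pi_sub] at h4
    push_cast
    rw [← abs_neg]
    have h6 : -(Real.cos (r * Real.pi / 120) - -(c0.getD (120 - r) 0 : ℝ) / 10 ^ 6) =
        -Real.cos (r * Real.pi / 120) - (c0.getD (120 - r) 0 : ℝ) / 10 ^ 6 := by ring
    rw [h6]
    exact h4
  · have h4 := key (r - 120) (by omega)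
    have h5 : (((r - 120 : ℕ) : ℝ)) * Real.pi / 120 = r * Real.pi / 120 - Real.pi := by
      rw [Nat.cast_sub (by omega)]
      push_cast
      ring
    rw [h5, Real.cos_sub_pi] at h4
    push_cast
    rw [← abs_neg]
    have h6 : -(Real.cos (r * Real.pi / 120) - -(c0.getD (r - 120) 0 : ℝ) / 10 ^ 6) =
        -Real.cos (r * Real.pi / 120) - (c0.getD (r - 120) 0 : ℝ) / 10 ^ 6 := by ring
    rw [h6]
    exact h4
  · have h4 := key (240 - r) (by omega)
    have h5 : (((240 - r : ℕ) : ℝ)) * Real.pi / 120 = 2 * Real.pi - r * Real.pi / 120 := by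
      rw [Nat.cast_sub (by omega)]
      push_cast
      ring
    rw [h5, Real.cos_two_pi_sub] at h4
    exact h4

end Pool.Agent.Helper10.RC
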